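import Pool.Agent.H47.RP.Targets

/-!
# Row RSC of the board `rpr_modules`: the prediction of the coordinates by the remote past
-/

set_option autoImplicit false

open MeasureTheory ProbabilityTheory Filter Topology Finset

namespace Pool.Agent.H31.RPR

open Pool.Agent.H89.MT (I1 X pt z1 IsMult)
open Pool.Agent.H47.RP
open Pool.Agent.H36.RP (S past remote remote_le past_le mulI dil Local Star T_PRD T_TAI)

/-- the negative -/
def ng (a : I1) : I1 := ⟨-(a : ℝ), by
  have h := a.2
  exact ⟨by linarith [h.2], by linarith [h.1]⟩⟩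

theorem ng_ng (a : I1) : ng (ng a) = a := Subtype.ext (neg_neg (a : ℝ))

theorem cont_ng : Continuous ng := by
  unfold ng
  exact Continuous.subtype_mk (continuous_neg.comp continuous_subtype_val) _

theorem mulI_cases {s : I1} (hs : (s : ℝ) ^ 2 = 1) :
    ((s : ℝ) = 1 ∧ ∀ a, mulI s a = a) ∨ ((s : ℝ) = -1 ∧ ∀ a, mulI s a = ng a) := by
  have h0 : ((s : ℝ) - 1) * ((s : ℝ) + 1) = 0 := by linear_combination hs
  rcases mul_eq_zero.1 h0 with h | h
  · have h1 : (s : ℝ) = 1 := by linarith
    refine Or.inl ⟨h1, fun a => Subtype.ext ?_⟩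
    show (s : ℝ) * a = a
    rw [h1, one_mul]
  · have h1 : (s : ℝ) = -1 := by linarith
    refine Or.inr ⟨h1, fun a => Subtype.ext ?_⟩
    show (s : ℝ) * a = -(a : ℝ)
    rw [h1, neg_one_mul]

theorem int_cmp {κ : Measure X} [IsProbabilityMeasure κ] {ψ : I1 → ℝ} (h : Continuous ψ) (m : ℤ) :
    Integrable (fun x : X => ψ (x m)) κ := by
  obtain ⟨C, hC⟩ := isCompact_univ.exists_bound_of_continuousOn h.continuousOn
  refine Integrable.of_bound (h.measurable.comp (measurable_pi_apply m)).aestronglyMeasurable C ?_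
  exact Eventually.of_forall fun x => hC (x m) (Set.mem_univ _)

theorem pf_RSC (hP : T_PRD) (hT : T_TAI) : T_RSC := by
  intro κ _ hS hStar m ψ hψ
  have hψn : Continuous fun a => ψ (ng a) := hψ.comp cont_ng
  set ψe : I1 → ℝ := fun a => (ψ a + ψ (ng a)) / 2 with he
  set ψo : I1 → ℝ := fun a => (ψ a - ψ (ng a)) / 2 with ho
  have hec : Continuous ψe := (hψ.add hψn).div_const 2
  have hoc : Continuous ψo := (hψ.sub hψn).div_const 2
  have key : ∀ φ : I1 → ℝ, Continuous φ → (∀ s : I1, (s : ℝ) ^ 2 = 1 → ∃ t : ℝ, t ^ 2 = 1 ∧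
      ∀ a, φ (mulI s a) = t * φ a) →
      κ[fun x => φ (x m) | past (m - 1)] =ᵐ[κ] κ[fun x => φ (x m) | remote] := by
    intro φ hφ hs
    exact hT κ _ (m - 1) fun j => hP κ hS hStar φ hφ hs m j
  have h1 := key ψe hec (by
    intro s hs
    refine ⟨1, by norm_num, fun a => ?_⟩
    rcases mulI_cases hs with ⟨-, h⟩ | ⟨-, h⟩
    · rw [h a, one_mul]
    · rw [h a, one_mul]
      simp only [he, ng_ng]
      ring)
  have h2 := key ψo hoc (by
    intro s hs
    refine ⟨s, hs, fun a => ?_⟩
    rcases mulI_cases hs with ⟨h0, h⟩ | ⟨h0, h⟩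
    · rw [h a, h0, one_mul]
    · rw [h a, h0]
      simp only [ho, ng_ng]
      ring)
  have hsum : (fun x : X => ψ (x m)) = (fun x : X => ψe (x m)) + fun x : X => ψo (x m) := by
    funext x
    simp only [he, ho, Pi.add_apply]
    ring
  rw [hsum]
  have h3 := condExp_add (μ := κ) (int_cmp hec m) (int_cmp hoc m) (past (m - 1))
  have h4 := condExp_add (μ := κ) (int_cmp hec m) (int_cmp hoc m) remote
  exact h3.trans ((h1.add h2).trans h4.symm)

end Pool.Agent.H31.RPR
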